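import Pool.Agent.H86.SQ.EXV

/-!
# Search on random k-CNFs (MP_c62aed_lc), row EXQ: the bad solutions of the planted formulas
-/

set_option autoImplicit false

namespace Pool.Agent.H86.SQ

open Finset Pool.Agent.H97.RK Pool.Agent.H41.SS Pool.Agent.H47.SR Pool.Agent.H45.SQP
open Pool.Agent.H47.PL (Sat Os)

theorem sum_dst' (n : ℕ) (σ : Fin n → Bool) (g : ℕ → ℝ) :
    ∑ τ : Fin n → Bool, g (dst σ τ) = ∑ w ∈ range (n + 1), (n.choose w : ℝ) * g w := by
  have h := Finset.sum_powerset_apply_card g (x := (univ : Finset (Fin n)))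
  rw [Finset.card_univ, Fintype.card_fin] at h
  simp only [nsmul_eq_mul] at h
  rw [← h, Finset.powerset_univ]
  refine Fintype.sum_equiv
    { toFun := fun τ => univ.filter fun v => σ v ≠ τ v
      invFun := fun S v => xor (σ v) (decide (v ∈ S))
      left_inv := ?_
      right_inv := ?_ } _ _ ?_
  · intro τ
    funext v
    by_cases h' : σ v = τ v
    · simp [h']
    · simp only [ne_eq, mem_filter, mem_univ, true_and, h', not_false_eq_true, decide_true]
      revert h'
      cases σ v <;> cases τ v <;> simp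
  · intro S
    ext v
    simp only [ne_eq, mem_filter, mem_univ, true_and]
    by_cases h' : v ∈ S
    · cases σ v <;> simp [h']
    · cases σ v <;> simp [h']
  · intro τ
    rfl

open Classical in
theorem sat_iff' {n k m : ℕ} (F : Fml n k m) (σ τ : Fin n → Bool) :
    ((Dist F ∧ Sat F σ) ∧ Sat F τ) ↔ ∀ c, F c ∈ Os n k σ ∩ Os n k τ := by
  unfold Os Sat
  simp only [mem_inter, mem_filter, mem_Om]
  constructor
  · rintro ⟨⟨h1, h2⟩, h3⟩ c
    exact ⟨⟨h1 c, h2 c⟩, h1 c, h3 c⟩
  · intro h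
    exact ⟨⟨fun c => (h c).1.1, fun c => (h c).1.2⟩, fun c => (h c).2.2⟩

open Classical in
theorem pf_EXQ (hPGO : T_PGO) (hOSC : Pool.Agent.H47.PL.T_OSC) : T_EXQ := by
  intro n k m t r hk hkn htn
  have hOm : ∀ σ τ : Fin n → Bool, Os n k σ ∩ Os n k τ ⊆ Om n k :=
    fun σ τ => inter_subset_left.trans (filter_subset _ _)
  have h4k : 4 ≤ 2 ^ k := by
    have h1 : 2 ^ 2 ≤ 2 ^ k := Nat.pow_le_pow_right (by norm_num) hk
    omega
  have hOm2 : ∀ σ τ : Fin n → Bool, (Om n k).card ≤ 2 * (Os n k σ ∩ Os n k τ).card := by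
    intro σ τ
    have h1 := (hOSC n k σ τ).2
    rw [card_Om]
    have h2 : 4 * n.descFactorial k ≤ 2 ^ k * n.descFactorial k := Nat.mul_le_mul_right _ h4k
    omega
  obtain ⟨P, hP⟩ : ∃ P : ℝ, P = prb n k m t (128 * t) (12 * t) := ⟨_, rfl⟩
  rw [← hP]
  obtain ⟨B, hB⟩ : ∃ B : ℝ, B = bl n r := ⟨_, rfl⟩
  have hterm : ∀ (σ τ z : Fin n → Bool),
      (∑ F ∈ univ.filter fun F : Fml n k m => Dist F ∧ Sat F σ,
        if Sat F τ ∧ ¬ Gd F t (128 * t) (12 * t) z then (1 : ℝ) else 0) ≤
        P * ((Os n k σ ∩ Os n k τ).card : ℝ) ^ m := by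
    intro σ τ z
    have h1 := hPGO n k m t (128 * t) (12 * t) (Os n k σ ∩ Os n k τ) (by omega) hkn (by omega)
      (hOm σ τ) (hOm2 σ τ) z
    rw [← hP] at h1
    refine le_trans (le_of_eq ?_) h1
    rw [← Finset.sum_filter, Finset.sum_const, nsmul_eq_mul, mul_one, filter_filter]
    congr 2
    ext F
    simp only [mem_filter, mem_univ, true_and]
    rw [← sat_iff']
    tauto
  have hPQ : ∀ σ τ : Fin n → Bool, 0 ≤ P * ((Os n k σ ∩ Os n k τ).card : ℝ) ^ m := by
    intro σ τ
    refine le_trans ?_ (hterm σ τ fun _ => true)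
    refine Finset.sum_nonneg fun F _ => ?_
    split_ifs <;> norm_num
  have hpairs : (∑ p ∈ univ.filter fun p : Fml n k m × (Fin n → Bool) => Dist p.1 ∧ Sat p.1 p.2,
      (badr p.1 t r : ℝ)) =
      ∑ σ : Fin n → Bool, ∑ F ∈ univ.filter fun F : Fml n k m => Dist F ∧ Sat F σ,
        (badr F t r : ℝ) := by
    rw [Finset.sum_filter, Fintype.sum_prod_type_right]
    refine Finset.sum_congr rfl fun σ _ => ?_
    rw [Finset.sum_filter]
  rw [hpairs]
  have hσ : ∀ σ : Fin n → Bool,
      ∑ F ∈ univ.filter fun F : Fml n k m => Dist F ∧ Sat F σ, (badr F t r : ℝ) ≤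
      B * P * ∑ w ∈ range (n + 1), (n.choose w : ℝ) *
        ((2 ^ k - 2) * (n.descFactorial k : ℝ) + ((n - w).descFactorial k : ℝ)) ^ m := by
    intro σ
    calc ∑ F ∈ univ.filter fun F : Fml n k m => Dist F ∧ Sat F σ, (badr F t r : ℝ)
        ≤ ∑ F ∈ univ.filter fun F : Fml n k m => Dist F ∧ Sat F σ, ∑ τ : Fin n → Bool,
          ∑ z ∈ univ.filter fun z : Fin n → Bool => dst z τ ≤ r,
            if Sat F τ ∧ ¬ Gd F t (128 * t) (12 * t) z then (1 : ℝ) else 0 :=
          Finset.sum_le_sum fun F _ => badr_le F t r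
      _ = ∑ τ : Fin n → Bool,
          ∑ z ∈ univ.filter fun z : Fin n → Bool => dst z τ ≤ r,
            ∑ F ∈ univ.filter fun F : Fml n k m => Dist F ∧ Sat F σ,
            if Sat F τ ∧ ¬ Gd F t (128 * t) (12 * t) z then (1 : ℝ) else 0 := by
          rw [Finset.sum_comm]
          refine Finset.sum_congr rfl fun τ _ => ?_
          rw [Finset.sum_comm]
      _ ≤ ∑ τ : Fin n → Bool,
          ∑ z ∈ univ.filter fun z : Fin n → Bool => dst z τ ≤ r,
            P * ((Os n k σ ∩ Os n k τ).card : ℝ) ^ m :=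
          Finset.sum_le_sum fun τ _ => Finset.sum_le_sum fun z _ => hterm σ τ z
      _ ≤ ∑ τ : Fin n → Bool, B * (P * ((Os n k σ ∩ Os n k τ).card : ℝ) ^ m) := by
          refine Finset.sum_le_sum fun τ _ => ?_
          rw [Finset.sum_const, nsmul_eq_mul]
          refine mul_le_mul_of_nonneg_right ?_ (hPQ σ τ)
          rw [hB]
          exact_mod_cast card_dst n _ τ
      _ = B * P * ∑ τ : Fin n → Bool, ((Os n k σ ∩ Os n k τ).card : ℝ) ^ m := by
          rw [Finset.mul_sum]
          refine Finset.sum_congr rfl fun τ _ => ?_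
          ring
      _ = _ := by
          rw [← sum_dst' n σ fun w =>
            ((2 ^ k - 2) * (n.descFactorial k : ℝ) + ((n - w).descFactorial k : ℝ)) ^ m]
          congr 1
          refine Finset.sum_congr rfl fun τ _ => ?_
          congr 1
          have h3 := (hOSC n k σ τ).2
          have h4 : ((Os n k σ ∩ Os n k τ).card : ℝ) + 2 * (n.descFactorial k : ℝ) =
              2 ^ k * (n.descFactorial k : ℝ) + ((n - dst σ τ).descFactorial k : ℝ) := by
            exact_mod_cast h3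
          linarith
  refine (Finset.sum_le_sum fun σ _ => hσ σ).trans (le_of_eq ?_)
  rw [Finset.sum_const, card_univ, Fintype.card_fun, Fintype.card_bool, Fintype.card_fin,
    nsmul_eq_mul, hB]
  push_cast
  ring

end Pool.Agent.H86.SQ
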